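import Mathlib

/-!
# A two-cycle of the γ-graph operator

Two non-isomorphic graphs `G`, `H` on 15 vertices (31 edges each, domination number 3) with
`G(γ) ≅ H` and `H(γ) ≅ G`.
-/

set_option autoImplicit false

namespace Pool.Agent.Results.MP_b9dfd5_co.TwoCycle

/-- `S` is dominating in `G`: every vertex outside `S` has a neighbour in `S`. -/
def IsDom {V : Type*} (G : SimpleGraph V) (S : Finset V) : Prop :=
  ∀ v, v ∉ S → ∃ w ∈ S, G.Adj v w

/-- `S` is a `γ`-set of `G`: a dominating set of minimum size. -/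
def IsGammaSet {V : Type*} (G : SimpleGraph V) (S : Finset V) : Prop :=
  IsDom G S ∧ ∀ T : Finset V, IsDom G T → S.card ≤ T.card

/-- The `γ`-graph `G(γ)`: its vertices are the `γ`-sets of `G`, and `S₁ ≠ S₂` are adjacent when
`S₂ = (S₁ \ {v₁}) ∪ {v₂}` for some `v₁ ∈ S₁`, `v₂ ∈ S₂` adjacent in `G`. -/
def gammaGraph {V : Type*} [DecidableEq V] (G : SimpleGraph V) :
    SimpleGraph {S : Finset V // IsGammaSet G S} where
  Adj S₁ S₂ := S₁ ≠ S₂ ∧ ∃ v₁ ∈ S₁.1, ∃ v₂ ∈ S₂.1, G.Adj v₁ v₂ ∧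
    S₂.1 = insert v₂ (S₁.1.erase v₁)
  symm := ⟨by
    rintro ⟨S₁, h₁⟩ ⟨S₂, h₂⟩ ⟨hne, v₁, hv₁, v₂, hv₂, hadj, heq⟩
    simp only at hv₁ hv₂ heq
    have hcard : S₁.card = S₂.card := le_antisymm (h₁.2 _ h₂.1) (h₂.2 _ h₁.1)
    have hv21 : v₂ ∉ S₁ := by
      intro h
      have hne' : v₂ ≠ v₁ := hadj.ne.symm
      have h3 : v₂ ∈ S₁.erase v₁ := Finset.mem_erase.mpr ⟨hne', h⟩
      rw [Finset.insert_eq_of_mem h3] at heq
      have h4 := Finset.card_erase_lt_of_mem hv₁
      rw [← heq] at h4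
      omega
    refine ⟨hne.symm, v₂, hv₂, v₁, hv₁, hadj.symm, ?_⟩
    simp only
    rw [heq, Finset.erase_insert (fun h => hv21 (Finset.mem_of_mem_erase h)),
      Finset.insert_erase hv₁]⟩
  loopless := ⟨fun _ h => h.1 rfl⟩

/-! ### Checking the two graphs -/

instance {n : ℕ} (G : SimpleGraph (Fin n)) [DecidableRel G.Adj] (S : Finset (Fin n)) :
    Decidable (IsDom G S) := by
  unfold IsDom
  infer_instance

theorem isDom_mono {V : Type*} {G : SimpleGraph V} {S T : Finset V} (h : S ⊆ T)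
    (hS : IsDom G S) : IsDom G T := by
  intro v hv
  obtain ⟨w, hw, hvw⟩ := hS v (fun h' => hv (h h'))
  exact ⟨w, h hw, hvw⟩

theorem subset_pair {V : Type*} [DecidableEq V] [Nonempty V] (T : Finset V) (h : T.card ≤ 2) :
    ∃ a b, T ⊆ {a, b} := by
  obtain ⟨x⟩ := ‹Nonempty V›
  rcases Nat.lt_or_ge T.card 1 with h0 | h0
  · have : T = ∅ := Finset.card_eq_zero.mp (by omega)
    exact ⟨x, x, by rw [this]; exact Finset.empty_subset _⟩
  · rcases Nat.lt_or_ge T.card 2 with h1 | h1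
    · obtain ⟨a, ha⟩ := Finset.card_eq_one.mp (show T.card = 1 by omega)
      exact ⟨a, a, by rw [ha]; simp⟩
    · obtain ⟨a, b, _, hab⟩ := Finset.card_eq_two.mp (show T.card = 2 by omega)
      exact ⟨a, b, by rw [hab]⟩

theorem exists_sorted (S : Finset (Fin 15)) (h : S.card = 3) :
    ∃ a b c, a < b ∧ b < c ∧ S = {a, b, c} := by
  obtain ⟨a, b, c, hab, hac, hbc, rfl⟩ := Finset.card_eq_three.mp h
  rcases lt_or_gt_of_ne hab with h1 | h1 <;> rcases lt_or_gt_of_ne hac with h2 | h2 <;>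
    rcases lt_or_gt_of_ne hbc with h3 | h3
  · exact ⟨a, b, c, h1, h3, rfl⟩
  · exact ⟨a, c, b, h2, h3, by ext x; simp only [Finset.mem_insert, Finset.mem_singleton]; tauto⟩
  · exact absurd (h1.trans h3) (not_lt_of_gt h2)
  · exact ⟨c, a, b, h2, h1, by ext x; simp only [Finset.mem_insert, Finset.mem_singleton]; tauto⟩
  · exact ⟨b, a, c, h1, h2, by ext x; simp only [Finset.mem_insert, Finset.mem_singleton]; tauto⟩
  · exact absurd (h3.trans h1) (not_lt_of_gt h2)
  · exact ⟨b, c, a, h3, h2, by ext x; simp only [Finset.mem_insert, Finset.mem_singleton]; tauto⟩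
  · exact ⟨c, b, a, h3, h1, by ext x; simp only [Finset.mem_insert, Finset.mem_singleton]; tauto⟩

/-- If `f` lists the dominating triples of `A` without repetition, no pair dominates, and `B` is
the sliding graph of the list, then `A(γ) ≅ B`. -/
theorem iso_of_list (A B : SimpleGraph (Fin 15)) (f : Fin 15 → Finset (Fin 15))
    (h1 : ∀ i, IsDom A (f i)) (h2 : ∀ i, (f i).card = 3) (h3 : ∀ a b, ¬ IsDom A {a, b})
    (h4 : ∀ a b, a < b → ∀ c, b < c → IsDom A {a, b, c} → ∃ i, f i = {a, b, c})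
    (h5 : Function.Injective f)
    (h6 : ∀ i j, (i ≠ j ∧ ∃ v₁ ∈ f i, ∃ v₂ ∈ f j, A.Adj v₁ v₂ ∧
      f j = insert v₂ ((f i).erase v₁)) ↔ B.Adj i j) :
    Nonempty (gammaGraph A ≃g B) := by
  have hmin : ∀ T, IsDom A T → 3 ≤ T.card := by
    intro T hT
    by_contra hlt
    obtain ⟨a, b, hab⟩ := subset_pair T (by omega)
    exact h3 a b (isDom_mono hab hT)
  have hg : ∀ i, IsGammaSet A (f i) := fun i => ⟨h1 i, fun T hT => by
    rw [h2 i]; exact hmin T hT⟩
  have hbij : Function.Bijective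
      (fun i => (⟨f i, hg i⟩ : {S : Finset (Fin 15) // IsGammaSet A S})) := by
    constructor
    · intro i j hij
      exact h5 (congrArg Subtype.val hij)
    · rintro ⟨S, hS⟩
      have hc : S.card = 3 := le_antisymm
        ((hS.2 _ (h1 0)).trans (le_of_eq (h2 0))) (hmin S hS.1)
      obtain ⟨a, b, c, hab, hbc, habc⟩ := exists_sorted S hc
      obtain ⟨i, hi⟩ := h4 a b hab c hbc (by rw [← habc]; exact hS.1)
      exact ⟨i, Subtype.ext (hi.trans habc.symm)⟩
  refine ⟨(RelIso.mk (Equiv.ofBijective _ hbij) ?_ : B ≃g gammaGraph A).symm⟩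
  intro i j
  rw [← h6 i j]
  simp only [Equiv.ofBijective_apply, gammaGraph]
  refine and_congr_left fun _ => ?_
  rw [Ne, Ne, Subtype.mk.injEq, h5.eq_iff]

/-- Neighbourhoods of the first graph, encoded in binary. -/
def mA : Fin 15 → ℕ := ![60, 8448, 6201, 53, 45, 17437, 1920, 1856, 9922, 1472, 17376, 4100,
  18436, 16642, 13344]

/-- Neighbourhoods of the second graph, encoded in binary. -/
def mB : Fin 15 → ℕ := ![22592, 1056, 24864, 1680, 1672, 1286, 22785, 1816, 228, 1176, 698,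
  20545, 18497, 16388, 14405]

/-- The first graph. -/
def A : SimpleGraph (Fin 15) where
  Adj i j := (mA i).testBit j = true
  symm := ⟨by decide +kernel⟩
  loopless := ⟨by decide +kernel⟩

/-- The second graph. -/
def B : SimpleGraph (Fin 15) where
  Adj i j := (mB i).testBit j = true
  symm := ⟨by decide +kernel⟩
  loopless := ⟨by decide +kernel⟩

instance : DecidableRel A.Adj := fun i j => inferInstanceAs (Decidable ((mA i).testBit j = true))
instance : DecidableRel B.Adj := fun i j => inferInstanceAs (Decidable ((mB i).testBit j = true))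

/-- The `γ`-sets of `A`. -/
def fA : Fin 15 → Finset (Fin 15) := ![{0, 8, 12}, {1, 2, 10}, {2, 5, 8}, {2, 6, 13}, {2, 7, 13},
  {2, 8, 10}, {2, 8, 12}, {2, 8, 13}, {2, 8, 14}, {2, 9, 13}, {2, 10, 13}, {3, 8, 12}, {4, 8, 12},
  {5, 8, 11}, {5, 8, 12}]

/-- The `γ`-sets of `B`. -/
def fB : Fin 15 → Finset (Fin 15) := ![{0, 2, 10}, {1, 7, 14}, {2, 6, 10}, {2, 10, 11},
  {2, 10, 12}, {2, 10, 14}, {3, 5, 14}, {4, 5, 14}, {5, 7, 14}, {5, 9, 14}, {5, 10, 14},
  {6, 10, 13}, {6, 10, 14}, {7, 10, 14}, {8, 10, 14}]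

theorem isoAB : Nonempty (gammaGraph A ≃g B) := by
  refine iso_of_list A B fA ?_ ?_ ?_ ?_ ?_ ?_
  · decide +kernel
  · decide +kernel
  · decide +kernel
  · decide +kernel
  · decide +kernel
  · decide +kernel

theorem isoBA : Nonempty (gammaGraph B ≃g A) := by
  refine iso_of_list B A fB ?_ ?_ ?_ ?_ ?_ ?_
  · decide +kernel
  · decide +kernel
  · decide +kernel
  · decide +kernel
  · decide +kernel
  · decide +kernel

theorem exA : ∃ a, (Finset.univ.filter fun j => A.Adj a j).card = 3 := by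
  decide +kernel

theorem noB : ∀ a, (Finset.univ.filter fun j => B.Adj a j).card ≠ 3 := by
  decide +kernel

theorem notIso : IsEmpty (A ≃g B) := by
  refine ⟨fun e => ?_⟩
  obtain ⟨a, ha⟩ := exA
  refine noB (e a) ?_
  rw [← ha]
  refine Finset.card_bij' (fun j _ => e.symm j) (fun j _ => e j) ?_ ?_ ?_ ?_
  · intro j hj
    rw [Finset.mem_filter] at hj ⊢
    refine ⟨Finset.mem_univ _, ?_⟩
    rw [← e.map_adj_iff, e.apply_symm_apply]
    exact hj.2
  · intro j hj
    rw [Finset.mem_filter] at hj ⊢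
    exact ⟨Finset.mem_univ _, e.map_adj_iff.mpr hj.2⟩
  · intro j _
    exact e.apply_symm_apply j
  · intro j _
    exact e.symm_apply_apply j

/-- There are two non-isomorphic graphs `G`, `H` with `G(γ) ≅ H` and `H(γ) ≅ G`. -/
theorem result : ∃ G H : SimpleGraph (Fin 15), IsEmpty (G ≃g H) ∧
    Nonempty (gammaGraph G ≃g H) ∧ Nonempty (gammaGraph H ≃g G) :=
  ⟨A, B, notIso, isoAB, isoBA⟩

end Pool.Agent.Results.MP_b9dfd5_co.TwoCycle
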